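import Mathlib
set_option autoImplicit false

namespace Pool.Agent.H.MP_8c5ed8_co
open Finset Filter Topology

def PS (n : ℕ) : Finset (Multiset ℕ) :=
  (range (n + 1)).biUnion fun k => univ.image fun p : Nat.Partition k => p.parts

theorem mem_PS {n : ℕ} {m : Multiset ℕ} : m ∈ PS n ↔ 0 ∉ m ∧ m.sum ≤ n := by
  simp only [PS, mem_biUnion, mem_range, mem_image, mem_univ, true_and]
  constructor
  · rintro ⟨k, hk, p, rfl⟩
    exact ⟨fun h => (p.parts_pos h).ne rfl, by rw [p.parts_sum]; omega⟩
  · rintro ⟨h1, h2⟩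
    exact ⟨m.sum, by omega, ⟨m, fun {i} hi => Nat.pos_of_ne_zero fun h => h1 (h ▸ hi), rfl⟩, rfl⟩

theorem card_PS (n : ℕ) (q : Multiset ℕ → Prop) [DecidablePred q] :
    ∑ k ∈ range (n + 1), Nat.card {p : Nat.Partition k // q p.parts} = ((PS n).filter q).card := by
  rw [PS, filter_biUnion, card_biUnion]
  · refine sum_congr rfl fun k _ => ?_
    rw [filter_image, card_image_of_injective _ fun a b h => Nat.Partition.ext h,
      Nat.card_eq_fintype_card, Fintype.card_subtype]
  · intro k _ k' _ h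
    refine disjoint_left.2 fun m h1 h2 => h ?_
    obtain ⟨p, -, rfl⟩ := mem_image.1 (mem_filter.1 h1).1
    obtain ⟨p', -, e⟩ := mem_image.1 (mem_filter.1 h2).1
    rw [← p.parts_sum, ← e, p'.parts_sum]

theorem poly (n D : ℕ) : ((PS n).filter fun m => m.toFinset.card ≤ D).card ≤ ((n + 1) ^ 2) ^ D := by
  induction D with
  | zero =>
    refine card_le_one.2 fun a ha b hb => ?_
    have h1 := (mem_filter.1 ha).2
    have h2 := (mem_filter.1 hb).2
    simp only [Nat.le_zero, card_eq_zero, Multiset.toFinset_eq_empty] at h1 h2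
    rw [h1, h2]
  | succ D ih =>
    have h : ((PS n).filter fun m => m.toFinset.card ≤ D + 1) ⊆ ((range (n + 1) ×ˢ range (n + 1)) ×ˢ
        (PS n).filter fun m => m.toFinset.card ≤ D).image
        fun x => Multiset.replicate x.1.1 x.1.2 + x.2 := by
      intro m hm
      obtain ⟨h1, h2⟩ := mem_filter.1 hm
      obtain ⟨h0, h1⟩ := mem_PS.1 h1
      rcases Multiset.empty_or_exists_mem m with rfl | ⟨a, ha⟩
      · exact mem_image.2 ⟨((0, 0), 0), by simp [mem_PS], by simp⟩
      have e : Multiset.replicate (m.count a) a + m.filter (fun b => ¬ a = b) = m := by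
        rw [← Multiset.filter_eq, Multiset.filter_add_not]
      have e1 := congrArg Multiset.sum e
      rw [Multiset.sum_add, Multiset.sum_replicate, smul_eq_mul] at e1
      have a0 : 1 ≤ a := Nat.pos_of_ne_zero fun h => h0 (h ▸ ha)
      have c0 : 1 ≤ m.count a := Multiset.one_le_count_iff_mem.2 ha
      refine mem_image.2 ⟨((m.count a, a), m.filter fun b => ¬ a = b), ?_, e⟩
      simp only [mem_product, mem_range, mem_filter, mem_PS]
      have a1 := Nat.le_mul_of_pos_right (m.count a) a0
      have c1 := Nat.le_mul_of_pos_left a c0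
      refine ⟨⟨by omega, by omega⟩, ⟨fun h => h0 (Multiset.mem_of_mem_filter h), by omega⟩, ?_⟩
      have : (m.filter fun b => ¬ a = b).toFinset = m.toFinset.erase a := by
        ext b
        simp [eq_comm, and_comm]
      rw [this, card_erase_of_mem (Multiset.mem_toFinset.2 ha)]
      omega
    refine (card_le_card h).trans (card_image_le.trans ?_)
    rw [card_product, card_product, card_range, pow_succ' ((n + 1) ^ 2), sq]
    exact Nat.mul_le_mul_left _ (by rwa [sq] at ih)

theorem expo (n : ℕ) : 2 ^ n.sqrt ≤ (PS n).card := by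
  have h := card_le_card_of_injOn (s := (Icc 1 n.sqrt).powerset) (t := PS n) Finset.val
    (fun A hA => by
      have hA := mem_powerset.1 hA
      refine mem_coe.2 (mem_PS.2 ⟨fun h => by simpa using hA h, le_trans ?_ (Nat.sqrt_le n)⟩)
      have h1 := Multiset.sum_le_card_nsmul A.val n.sqrt fun x hx => (mem_Icc.1 (hA hx)).2
      have h2 := card_le_card hA
      simp only [Nat.card_Icc, add_tsub_cancel_right] at h2
      exact h1.trans (Nat.mul_le_mul_right _ h2))
    fun A _ B _ h => val_injective h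
  simpa using h

theorem dbl (n i : ℕ) (hi : 0 < i) :
    ∑ m ∈ (PS n).filter (i ∉ ·), m.toFinset.card ≤ i * (PS n).card := by
  rw [← card_sigma, ← card_range i, ← card_product]
  simp only [card_range]
  have key : ∀ x ∈ ((PS n).filter (i ∉ ·)).sigma fun m => m.toFinset,
      (x.1.erase x.2 + Multiset.replicate ((n - x.1.sum) / i) i).sum + x.2 + (n - x.1.sum) % i = n ∧
      (x.1.erase x.2 + Multiset.replicate ((n - x.1.sum) / i) i).filter (fun b => ¬ b = i) =
        x.1.erase x.2 ∧ x.2 ::ₘ x.1.erase x.2 = x.1 := by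
    rintro ⟨m, a⟩ hx
    obtain ⟨h1, h2⟩ := mem_sigma.1 hx
    obtain ⟨h1, h3⟩ := mem_filter.1 h1
    have h2 := Multiset.mem_toFinset.1 h2
    have h4 := Multiset.sum_erase h2
    have h5 := (mem_PS.1 h1).2
    have h6 := Nat.div_add_mod' (n - m.sum) i
    refine ⟨?_, ?_, Multiset.cons_erase h2⟩
    · simp only [Multiset.sum_add, Multiset.sum_replicate, smul_eq_mul] at *
      omega
    · rw [Multiset.filter_add, (Multiset.filter_eq_self (p := fun b => ¬ b = i)).2 fun b hb h =>
        h3 (h ▸ Multiset.mem_of_mem_erase hb), Multiset.filter_eq_nil.2 fun b hb => by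
          simp [Multiset.eq_of_mem_replicate hb], add_zero]
  refine card_le_card_of_injOn (fun x => ((n - x.1.sum) % i,
    x.1.erase x.2 + Multiset.replicate ((n - x.1.sum) / i) i)) (fun x hx => ?_) fun x hx y hy h => ?_
  · have h1 := (key x hx).1
    refine mem_coe.2 (mem_product.2 ⟨mem_range.2 (Nat.mod_lt _ hi), mem_PS.2 ⟨fun h => ?_, ?_⟩⟩)
    · rcases Multiset.mem_add.1 h with h | h
      · exact (mem_PS.1 (mem_filter.1 (mem_sigma.1 hx).1).1).1 (Multiset.mem_of_mem_erase h)
      · exact hi.ne (Multiset.eq_of_mem_replicate h)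
    · dsimp only
      omega
  · obtain ⟨a1, a2, a3⟩ := key x hx
    obtain ⟨b1, b2, b3⟩ := key y hy
    obtain ⟨h1, h2⟩ := Prod.mk.inj h
    rw [h1, h2] at a1
    rw [h2, b2] at a2
    have e : x.2 = y.2 := by omega
    rw [← a2, e, b3] at a3
    exact Sigma.ext a3.symm (heq_of_eq e)

theorem zs (i : ℕ) (hi : 0 < i) (ε : ℝ) (hε : 0 < ε) :
    ∀ᶠ n in atTop, (((PS n).filter (i ∉ ·)).card : ℝ) ≤ ε * (PS n).card := by
  obtain ⟨D, hD⟩ := exists_nat_gt (2 * i / ε)
  have t1 : Tendsto (fun n : ℕ => n.sqrt + 1) atTop atTop :=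
    tendsto_atTop_atTop.2 fun b => ⟨b * b, fun a ha => (Nat.le_sqrt.2 ha).trans (Nat.le_succ _)⟩
  have t2 := ((tendsto_pow_const_div_const_pow_of_one_lt (4 * D) one_lt_two).comp t1).eventually
    (ge_mem_nhds (show 0 < ε / 4 by positivity))
  refine t2.mono fun n hn => ?_
  simp only [Function.comp] at hn
  rw [div_le_iff₀ (by positivity), pow_succ] at hn
  have h1 : ((((PS n).filter fun m => m.toFinset.card ≤ D).card : ℕ) : ℝ) ≤
      ((n.sqrt + 1 : ℕ) : ℝ) ^ (4 * D) := by
    have : n + 1 ≤ (n.sqrt + 1) ^ 2 := Nat.lt_succ_sqrt' n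
    have h : ((n + 1) ^ 2) ^ D ≤ (((n.sqrt + 1) ^ 2) ^ 2) ^ D := by gcongr
    rw [← pow_mul, ← pow_mul, ← pow_mul, ← mul_assoc] at h
    exact_mod_cast (poly n D).trans (by rwa [← pow_mul])
  have h2 : (2 : ℝ) ^ n.sqrt ≤ (PS n).card := by exact_mod_cast expo n
  set Z := (PS n).filter (i ∉ ·)
  have h3 : (Z.filter fun m => ¬ m.toFinset.card ≤ D).card * D ≤ i * (PS n).card := by
    refine le_trans ?_ ((sum_le_sum_of_subset (filter_subset (fun m => ¬ m.toFinset.card ≤ D) Z)).trans
      (dbl n i hi))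
    rw [← smul_eq_mul, ← sum_const]
    exact sum_le_sum fun m hm => (not_le.1 (mem_filter.1 hm).2).le
  have h4 : Z.card ≤ ((PS n).filter fun m => m.toFinset.card ≤ D).card +
      (Z.filter fun m => ¬ m.toFinset.card ≤ D).card := by
    rw [← card_filter_add_card_filter_not (s := Z) fun m => m.toFinset.card ≤ D]
    exact Nat.add_le_add_right (card_le_card (filter_subset_filter _ (filter_subset _ _))) _
  have h5 : ((Z.filter fun m => ¬ m.toFinset.card ≤ D).card : ℝ) * D ≤ i * (PS n).card := by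
    exact_mod_cast h3
  have h6 : (Z.card : ℝ) ≤ ((PS n).filter fun m => m.toFinset.card ≤ D).card +
      (Z.filter fun m => ¬ m.toFinset.card ≤ D).card := by exact_mod_cast h4
  have hD0 : (0 : ℝ) < D := lt_trans (by positivity) hD
  rw [div_lt_iff₀ hε] at hD
  have h7 : ((Z.filter fun m => ¬ m.toFinset.card ≤ D).card : ℝ) ≤ ε / 2 * (PS n).card := by
    refine le_of_mul_le_mul_right (h5.trans ?_) hD0
    have : (0 : ℝ) ≤ (PS n).card := by positivity
    nlinarith
  nlinarith

def cc (m : Multiset ℕ) (j : ℕ) : ℕ := (m.filter (· ≤ j)).card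

theorem idA (K : ℕ) (hK : 2 ≤ K) (m : Multiset ℕ) :
    ((m.filter fun a => 2 ≤ a ∧ a < K).map (· + 1)).sum + (m.filter (K < ·)).sum + 2 * m.count 1 +
      (K + 1) * m.count K ≤ m.sum + cc m K ∧
    cc m K = m.count 0 + m.count 1 + (m.filter fun a => 2 ≤ a ∧ a < K).card + m.count K ∧
    cc m 1 = m.count 0 + m.count 1 ∧ cc m K = m.count 1 + cc (m.filter fun a => ¬ 1 = a) K := by
  simp only [cc, Multiset.filter_filter]
  induction m using Multiset.induction_on with
  | empty => simp
  | cons a m ih =>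
    simp only [Multiset.filter_cons, Multiset.count_cons, Multiset.map_add,
      Multiset.sum_add, Multiset.card_add, Multiset.sum_cons, mul_add]
    split_ifs <;> simp only [Multiset.map_singleton, Multiset.sum_singleton, Multiset.card_singleton,
      Multiset.map_zero, Multiset.sum_zero, Multiset.card_zero, mul_zero, mul_one] <;> omega

def PA (m : Multiset ℕ) : Prop := ∃ j, 2 ≤ j ∧ cc m j + j = 2 * cc m 1 + 2

noncomputable def psi (H : ℕ) (m : Multiset ℕ) (e : ℕ) : Multiset ℕ :=
  Multiset.replicate (2 * m.count 1 - cc m (2 * H)) 1 + Multiset.replicate (m.count (2 * H) * H - e) 2 +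
    (m.filter fun a => 2 ≤ a ∧ a < 2 * H).map (· + 1) + m.filter (2 * H < ·)

theorem count_psi (H : ℕ) (m : Multiset ℕ) (e i : ℕ) : (psi H m e).count (i + 1) =
    (if i = 0 then 2 * m.count 1 - cc m (2 * H) else 0) + (if i = 1 then m.count (2 * H) * H - e else 0) +
    (if 2 ≤ i ∧ i < 2 * H then m.count i else 0) + if 2 * H < i + 1 then m.count (i + 1) else 0 := by
  have h := Multiset.count_map_eq_count' (· + 1) (m.filter fun a => 2 ≤ a ∧ a < 2 * H)
    (add_left_injective 1) i
  simp only [psi, Multiset.count_add, Multiset.count_replicate, h, Multiset.count_filter]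
  split_ifs <;> omega

theorem big (n H : ℕ) (hH : 1 ≤ H) :
    ((PS n).filter fun m => 2 * H ∈ m ∧ cc m (2 * H) ≤ 2 * m.count 1).card * H ≤ (PS n).card := by
  rw [← card_range H, ← card_product]
  simp only [card_range]
  refine card_le_card_of_injOn (fun x => psi H x.1 x.2) (fun x hx => ?_) fun x hx y hy h => ?_
  · obtain ⟨h1, h2⟩ := mem_filter.1 (mem_product.1 hx).1
    obtain ⟨h0, h1⟩ := mem_PS.1 h1
    refine mem_coe.2 (mem_PS.2 ⟨?_, ?_⟩)
    · simp [psi, Multiset.mem_replicate]
    · have h3 := (idA (2 * H) (by omega) x.1).1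
      have h4 : (2 * H + 1) * x.1.count (2 * H) =
        2 * (x.1.count (2 * H) * H) + x.1.count (2 * H) := by ring
      simp only [psi, Multiset.sum_add, Multiset.sum_replicate, smul_eq_mul]
      omega
  · obtain ⟨m, e⟩ := x
    obtain ⟨m', e'⟩ := y
    obtain ⟨a1, a2⟩ := mem_product.1 hx
    obtain ⟨b1, b2⟩ := mem_product.1 hy
    obtain ⟨a1, a3, a4⟩ := mem_filter.1 a1
    obtain ⟨b1, b3, b4⟩ := mem_filter.1 b1
    have a0 := Multiset.count_eq_zero.2 (mem_PS.1 a1).1
    have b0 := Multiset.count_eq_zero.2 (mem_PS.1 b1).1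
    have a5 := Multiset.one_le_count_iff_mem.2 a3
    have b5 := Multiset.one_le_count_iff_mem.2 b3
    rw [mem_range] at a2 b2
    dsimp only at *
    have c : ∀ i, _ = _ := fun i => (count_psi H m e i).symm.trans
      ((congrArg (Multiset.count (i + 1)) h).trans (count_psi H m' e' i))
    have c1 : m.count (2 * H) * H - e = m'.count (2 * H) * H - e' := by
      have h2 : ¬ 2 * H < 1 + 1 := by omega
      simpa [h2] using c 1
    have a6 := Nat.le_mul_of_pos_left H a5
    have b6 := Nat.le_mul_of_pos_left H b5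
    have hK : m.count (2 * H) = m'.count (2 * H) := by
      rcases lt_trichotomy (m.count (2 * H)) (m'.count (2 * H)) with h' | h' | h'
      · have := Nat.mul_le_mul_right H (Nat.succ_le_of_lt h')
        rw [Nat.succ_mul] at this
        omega
      · exact h'
      · have := Nat.mul_le_mul_right H (Nat.succ_le_of_lt h')
        rw [Nat.succ_mul] at this
        omega
    have hm : ∀ i, 2 ≤ i → i < 2 * H → m.count i = m'.count i := fun i h1 h2 => by
      have := c i
      split_ifs at this <;> omega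
    have hm' : (m.filter fun a => 2 ≤ a ∧ a < 2 * H) = m'.filter fun a => 2 ≤ a ∧ a < 2 * H := by
      ext i
      simp only [Multiset.count_filter]
      split_ifs with h'
      · exact hm i h'.1 h'.2
      · rfl
    have a7 := (idA (2 * H) (by omega) m).2.1
    have b7 := (idA (2 * H) (by omega) m').2.1
    rw [hm'] at a7
    have c0 : 2 * m.count 1 - cc m (2 * H) = 2 * m'.count 1 - cc m' (2 * H) := by
      have h2 : ¬ H = 0 := by omega
      simpa [h2] using c 0
    rw [hK] at c1 a6
    refine Prod.ext (Multiset.ext.2 fun i => ?_) (by dsimp only; omega)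
    dsimp only
    rcases Nat.lt_or_ge i 2 with h' | h'
    · interval_cases i <;> omega
    · rcases lt_trichotomy i (2 * H) with h'' | rfl | h''
      · exact hm i h' h''
      · exact hK
      · obtain ⟨i, rfl⟩ : ∃ k, i = k + 1 := ⟨i - 1, by omega⟩
        have := c i
        split_ifs at this <;> omega

theorem tot (n H : ℕ) (hH : 1 ≤ H) [DecidablePred PA] : ((PS n).filter PA).card ≤
    (2 * H + 1) * ((PS n).filter (1 ∉ ·)).card + ((PS n).filter (2 * H ∉ ·)).card +
    ((PS n).filter fun m => 2 * H ∈ m ∧ cc m (2 * H) ≤ 2 * m.count 1).card := by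
  have h : (PS n).filter PA ⊆ (((range (2 * H + 1) ×ˢ (PS n).filter (1 ∉ ·)).image
      fun x => Multiset.replicate (cc x.2 x.1 + x.1 - 2) 1 + x.2) ∪ (PS n).filter (2 * H ∉ ·)) ∪
      (PS n).filter fun m => 2 * H ∈ m ∧ cc m (2 * H) ≤ 2 * m.count 1 := by
    intro m hm
    obtain ⟨h1, j, j1, j2⟩ := mem_filter.1 hm
    obtain ⟨-, -, h2, h3⟩ := idA j j1 m
    obtain ⟨h4, h5⟩ := mem_PS.1 h1
    have h0 := Multiset.count_eq_zero.2 h4
    simp only [mem_union]
    rcases Nat.lt_or_ge j (2 * H + 1) with h | h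
    · have e : Multiset.replicate (m.count 1) 1 + m.filter (fun b => ¬ 1 = b) = m := by
        rw [← Multiset.filter_eq, Multiset.filter_add_not]
      have e1 := congrArg Multiset.sum e
      rw [Multiset.sum_add] at e1
      refine Or.inl (Or.inl (mem_image.2 ⟨(j, m.filter fun b => ¬ 1 = b), mem_product.2
        ⟨mem_range.2 h, mem_filter.2 ⟨mem_PS.2 ⟨fun h => h4 (Multiset.mem_of_mem_filter h),
        by dsimp only; omega⟩, by simp⟩⟩, ?_⟩))
      dsimp only
      rwa [show cc (m.filter fun b => ¬ 1 = b) j + j - 2 = m.count 1 by omega]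
    · by_cases h' : 2 * H ∈ m
      · have : cc m (2 * H) ≤ cc m j := Multiset.card_le_card
          (Multiset.monotone_filter_right m fun a (ha : a ≤ 2 * H) => (by omega : a ≤ j))
        exact Or.inr (mem_filter.2 ⟨h1, h', by omega⟩)
      · exact Or.inl (Or.inr (mem_filter.2 ⟨h1, h'⟩))
  refine (card_le_card h).trans ((card_union_le _ _).trans (Nat.add_le_add_right
    ((card_union_le _ _).trans (Nat.add_le_add_right (card_image_le.trans ?_) _)) _))
  rw [card_product, card_range]

theorem fin (ε : ℝ) (hε : 0 < ε) [DecidablePred PA] :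
    ∀ᶠ n in atTop, (((PS n).filter PA).card : ℝ) ≤ ε * (PS n).card := by
  obtain ⟨H, hH⟩ := exists_nat_gt (3 / ε)
  have h0 : (0 : ℝ) < H := lt_trans (by positivity) hH
  have h1 : 1 ≤ H := by exact_mod_cast h0
  filter_upwards [zs 1 one_pos (ε / 3 / (2 * H + 1)) (by positivity),
    zs (2 * H) (by omega) (ε / 3) (by positivity)] with n a1 a2
  have a3 : ((((PS n).filter fun m => 2 * H ∈ m ∧ cc m (2 * H) ≤ 2 * m.count 1).card : ℕ) : ℝ) * H ≤
      (PS n).card := by exact_mod_cast big n H h1
  have a4 : (((PS n).filter PA).card : ℝ) ≤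
      (2 * H + 1) * ((PS n).filter (1 ∉ ·)).card + ((PS n).filter (2 * H ∉ ·)).card +
      ((PS n).filter fun m => 2 * H ∈ m ∧ cc m (2 * H) ≤ 2 * m.count 1).card := by
    exact_mod_cast tot n H h1
  rw [div_mul_eq_mul_div, le_div_iff₀' (by positivity)] at a1
  rw [div_lt_iff₀ hε] at hH
  have a5 : ((((PS n).filter fun m => 2 * H ∈ m ∧ cc m (2 * H) ≤ 2 * m.count 1).card : ℕ) : ℝ) ≤
      ε / 3 * (PS n).card := by
    refine le_of_mul_le_mul_right (a3.trans ?_) h0
    have : (0 : ℝ) ≤ (PS n).card := by positivity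
    nlinarith
  linarith

end Pool.Agent.H.MP_8c5ed8_co
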